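import Mathlib

set_option autoImplicit false

open Set Metric Filter Topology

namespace Pool.Agent.ContB

/-- Property (A) of a metric space: for every positive `ε`, every pairwise disjoint family of
connected subsets of diameter greater than `ε` is finite. -/
def PropA (X : Type*) [MetricSpace X] : Prop :=
  ∀ ε : ℝ, 0 < ε → ∀ S : Set (Set X), S.PairwiseDisjoint id →
    (∀ s ∈ S, IsConnected s ∧ ε < Metric.diam s) → S.Finite

section bump

variable {X : Type*} [MetricSpace X]

/-- Boundary bumping. -/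
theorem exists_far_of_component {N : Set X} (hN : IsCompact N)
    (hNc : IsPreconnected N) {x y : X} {r : ℝ} (hy : y ∈ N) (hyr : dist y x < r)
    (hfar : ∃ z ∈ N, r ≤ dist z x) :
    ∃ z ∈ connectedComponentIn (N ∩ closedBall x r) y, r ≤ dist z x := by
  by_contra hcon
  push Not at hcon
  set H : Set X := N ∩ closedBall x r with hH
  have hHc : IsCompact H := hN.inter_right isClosed_closedBall
  have hyH : y ∈ H := ⟨hy, hyr.le⟩
  have : CompactSpace H := isCompact_iff_compactSpace.1 hHc
  set y' : H := ⟨y, hyH⟩ with hy'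
  have hcomp : connectedComponent y' ⊆ {h : H | dist (h : X) x < r} := by
    intro h hh
    apply hcon
    rw [connectedComponentIn_eq_image hyH]
    exact ⟨h, hh, rfl⟩
  rw [connectedComponent_eq_iInter_isClopen] at hcomp
  have hopen : IsOpen {h : H | dist (h : X) x < r} :=
    isOpen_lt (continuous_subtype_val.dist continuous_const) continuous_const
  obtain ⟨s, hs⟩ : ∃ s : {s : Set H // IsClopen s ∧ y' ∈ s},
      (s : Set H) ⊆ {h : H | dist (h : X) x < r} := by
    have : Nonempty {s : Set H // IsClopen s ∧ y' ∈ s} :=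
      ⟨⟨univ, isClopen_univ, trivial⟩⟩
    apply exists_subset_nhds_of_compactSpace
    · intro a b
      exact ⟨⟨a ∩ b, a.2.1.inter b.2.1, a.2.2, b.2.2⟩, inter_subset_left, inter_subset_right⟩
    · exact fun s => s.2.1.1
    · intro z hz
      exact hopen.mem_nhds (hcomp hz)
  obtain ⟨s, hsc, hys⟩ := s
  have hs : s ⊆ {h : H | dist (h : X) x < r} := hs
  -- the image of `s` is closed in `X` and relatively open in `N`
  have hZcl : IsClosed (Subtype.val '' s : Set X) :=
    (hsc.1.isCompact.image continuous_subtype_val).isClosed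
  obtain ⟨O, hO, hOs⟩ := isOpen_induced_iff.1 hsc.2
  have hZ : ∀ z ∈ N, z ∈ ball x r ∩ O ↔ z ∈ (Subtype.val '' s : Set X) := by
    intro z hz
    constructor
    · rintro ⟨hz1, hz2⟩
      have hzH : z ∈ H := ⟨hz, (mem_ball.1 hz1).le⟩
      refine ⟨⟨z, hzH⟩, ?_, rfl⟩
      rw [← hOs]
      exact hz2
    · rintro ⟨h, hh, rfl⟩
      refine ⟨hs hh, ?_⟩
      rw [← hOs] at hh
      exact hh
  obtain ⟨z, hzN, hzr⟩ := hfar
  have hcl := hNc (ball x r ∩ O) (Subtype.val '' s : Set X)ᶜ (isOpen_ball.inter hO)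
    hZcl.isOpen_compl ?_ ?_ ?_
  · obtain ⟨w, hwN, hw1, hw2⟩ := hcl
    exact hw2 ((hZ w hwN).1 hw1)
  · intro w hw
    by_cases h : w ∈ (Subtype.val '' s : Set X)
    · exact Or.inl ((hZ w hw).2 h)
    · exact Or.inr h
  · exact ⟨y, hy, (hZ y hy).2 ⟨y', hys, rfl⟩⟩
  · refine ⟨z, hzN, ?_⟩
    rintro ⟨h, hh, rfl⟩
    exact absurd (hs hh) (not_lt.2 hzr)

end bump

section locconn

variable {X : Type*} [MetricSpace X]

/-- Distances of points of a set in a compact space are bounded by its diameter. -/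
theorem dist_le_diam [CompactSpace X] {s : Set X} {a b : X} (ha : a ∈ s) (hb : b ∈ s) :
    dist a b ≤ Metric.diam s :=
  Metric.dist_le_diam_of_mem (isCompact_univ.isBounded.subset (subset_univ s)) ha hb

omit [MetricSpace X] in
theorem isClosed_connectedComponentIn [TopologicalSpace X] {F : Set X} (hF : IsClosed F) (x : X) :
    IsClosed (connectedComponentIn F x) := by
  by_cases hx : x ∈ F
  · apply isClosed_of_closure_subset
    apply IsPreconnected.subset_connectedComponentIn
    · exact isPreconnected_connectedComponentIn.closure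
    · exact subset_closure (mem_connectedComponentIn hx)
    · exact hF.closure_subset_iff.2 (connectedComponentIn_subset F x)
  · rw [connectedComponentIn_eq_empty hx]
    exact isClosed_empty

omit [MetricSpace X] in
/-- Two components of the same set that meet are equal. -/
theorem connectedComponentIn_eq_of_mem [TopologicalSpace X] {F : Set X} {x y z : X}
    (hx : z ∈ connectedComponentIn F x) (hy : z ∈ connectedComponentIn F y) :
    connectedComponentIn F x = connectedComponentIn F y :=
  (connectedComponentIn_eq hx).trans (connectedComponentIn_eq hy).symm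

omit [MetricSpace X] in
/-- The components of a set form a pairwise disjoint family. -/
theorem pairwiseDisjoint_components [TopologicalSpace X] (F : Set X) (T : Set X) :
    ((fun y => connectedComponentIn F y) '' T).PairwiseDisjoint id := by
  rintro _ ⟨a, -, rfl⟩ _ ⟨b, -, rfl⟩ hab
  rw [Function.onFun, Set.disjoint_left]
  intro z hz1 hz2
  exact hab (connectedComponentIn_eq_of_mem hz1 hz2)

/-- A compact connected subset of a compact metric space with (A) is locally connected. -/
theorem locconn_compact [CompactSpace X] (hA : PropA X) {N : Set X} (hN : IsCompact N)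
    (hNc : IsPreconnected N) {x : X} (hx : x ∈ N) {r : ℝ} (hr : 0 < r) :
    ∃ C ⊆ N ∩ closedBall x r, IsCompact C ∧ IsConnected C ∧ x ∈ C ∧
      ∃ ρ > 0, ball x ρ ∩ N ⊆ C := by
  set H : Set X := N ∩ closedBall x r with hH
  have hHc : IsCompact H := hN.inter_right isClosed_closedBall
  have hxH : x ∈ H := ⟨hx, mem_closedBall_self hr.le⟩
  refine ⟨connectedComponentIn H x, connectedComponentIn_subset H x, ?_, ?_,
    mem_connectedComponentIn hxH, ?_⟩
  · exact hHc.of_isClosed_subset (isClosed_connectedComponentIn hHc.isClosed x)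
      (connectedComponentIn_subset H x)
  · exact isConnected_connectedComponentIn_iff.2 hxH
  by_cases hfar : ∃ z ∈ N, r ≤ dist z x
  · have hfin : ((fun y => connectedComponentIn H y) '' (N ∩ ball x (r / 2))).Finite := by
      apply hA (r / 2) (by positivity) _ (pairwiseDisjoint_components H _)
      rintro _ ⟨y, ⟨hyN, hyr⟩, rfl⟩
      rw [mem_ball] at hyr
      have hyH : y ∈ H := ⟨hyN, by rw [mem_closedBall]; linarith⟩
      refine ⟨isConnected_connectedComponentIn_iff.2 hyH, ?_⟩
      obtain ⟨z, hz, hzr⟩ := exists_far_of_component hN hNc hyN (by linarith : dist y x < r) hfar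
      have h1 := dist_le_diam hz (mem_connectedComponentIn hyH)
      have h2 : dist z x ≤ dist z y + dist y x := dist_triangle z y x
      show r / 2 < Metric.diam (connectedComponentIn H y)
      linarith
    set T : Set X := ⋃ C ∈ {C ∈ (fun y => connectedComponentIn H y) '' (N ∩ ball x (r / 2)) |
      x ∉ C}, C with hT
    have hTcl : IsClosed T := by
      apply Set.Finite.isClosed_biUnion (hfin.subset (sep_subset _ _))
      rintro _ ⟨⟨y, -, rfl⟩, -⟩
      exact isClosed_connectedComponentIn hHc.isClosed y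
    have hxT : x ∉ T := by
      rw [hT]
      simp only [mem_iUnion, not_exists]
      rintro C ⟨-, hC⟩ hC'
      exact hC hC'
    obtain ⟨ρ, hρ, hρT⟩ := Metric.isOpen_iff.1 hTcl.isOpen_compl x hxT
    refine ⟨min ρ (r / 2), by positivity, ?_⟩
    rintro y ⟨hy, hyN⟩
    rw [mem_ball, lt_min_iff] at hy
    have hyH : y ∈ H := ⟨hyN, by rw [mem_closedBall]; linarith [hy.2]⟩
    have hyT : y ∉ T := hρT hy.1
    have hxy : x ∈ connectedComponentIn H y := by
      by_contra hcon
      apply hyT
      rw [hT]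
      simp only [mem_iUnion]
      exact ⟨connectedComponentIn H y, ⟨⟨y, ⟨hyN, hy.2⟩, rfl⟩, hcon⟩, mem_connectedComponentIn hyH⟩
    rw [← connectedComponentIn_eq hxy]
    exact mem_connectedComponentIn hyH
  · push Not at hfar
    refine ⟨1, one_pos, ?_⟩
    rintro y ⟨-, hy⟩
    have hHN : H = N := by
      rw [hH, inter_eq_left]
      intro z hz
      exact (hfar z hz).le
    rw [hHN]
    exact hNc.subset_connectedComponentIn hx Subset.rfl hy

/-- A compact connected metric space with (A) is locally connected. -/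
theorem locallyConnectedSpace_of_propA [CompactSpace X] [PreconnectedSpace X] (hA : PropA X) :
    LocallyConnectedSpace X := by
  rw [locallyConnectedSpace_iff_connected_subsets]
  intro x U hU
  obtain ⟨r, hr, hrU⟩ := Metric.nhds_basis_closedBall.mem_iff.1 hU
  obtain ⟨C, hC, -, hCc, hxC, ρ, hρ, hρC⟩ :=
    locconn_compact hA isCompact_univ isPreconnected_univ (mem_univ x) hr
  refine ⟨C, ?_, hCc.isPreconnected, fun y hy => hrU (hC hy).2⟩
  exact mem_of_superset (ball_mem_nhds x hρ) fun y hy => hρC ⟨hy, mem_univ y⟩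

end locconn

section crel

variable {X : Type*} [TopologicalSpace X]

/-- Two points lie in a common compact connected subset of `S`. -/
def CRel (S : Set X) (x y : X) : Prop :=
  ∃ C ⊆ S, IsCompact C ∧ IsConnected C ∧ x ∈ C ∧ y ∈ C

/-- The continuum component of `x` in `S`. -/
def kap (S : Set X) (x : X) : Set X := {y | CRel S x y}

theorem CRel.symm {S : Set X} {x y : X} (h : CRel S x y) : CRel S y x := by
  obtain ⟨C, h1, h2, h3, h4, h5⟩ := h
  exact ⟨C, h1, h2, h3, h5, h4⟩

theorem CRel.trans {S : Set X} {x y z : X} (h : CRel S x y) (h' : CRel S y z) : CRel S x z := by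
  obtain ⟨C, h1, h2, h3, h4, h5⟩ := h
  obtain ⟨D, g1, g2, g3, g4, g5⟩ := h'
  exact ⟨C ∪ D, union_subset h1 g1, h2.union g2, IsConnected.union ⟨y, h5, g4⟩ h3 g3,
    Or.inl h4, Or.inr g5⟩

theorem CRel.refl {S : Set X} {x : X} (h : x ∈ S) : CRel S x x :=
  ⟨{x}, singleton_subset_iff.2 h, isCompact_singleton, isConnected_singleton, rfl, rfl⟩

theorem CRel.mono {S T : Set X} (hST : S ⊆ T) {x y : X} (h : CRel S x y) : CRel T x y := by
  obtain ⟨C, h1, h2, h3, h4, h5⟩ := h
  exact ⟨C, h1.trans hST, h2, h3, h4, h5⟩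

theorem CRel.mem_left {S : Set X} {x y : X} (h : CRel S x y) : x ∈ S := by
  obtain ⟨C, h1, h2, h3, h4, h5⟩ := h
  exact h1 h4

theorem CRel.mem_right {S : Set X} {x y : X} (h : CRel S x y) : y ∈ S := h.symm.mem_left

theorem mem_kap {S : Set X} {x y : X} : y ∈ kap S x ↔ CRel S x y := Iff.rfl

theorem kap_subset {S : Set X} {x : X} : kap S x ⊆ S := fun _ h => CRel.mem_right h

theorem kap_eq {S : Set X} {x y : X} (h : CRel S x y) : kap S x = kap S y := by
  ext z
  exact ⟨fun hz => h.symm.trans hz, fun hz => h.trans hz⟩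

theorem self_mem_kap {S : Set X} {x : X} (h : x ∈ S) : x ∈ kap S x := CRel.refl h

/-- A continuum in `S` through `x` lies in the component of `x`. -/
theorem subset_kap {S C : Set X} {x : X} (h1 : C ⊆ S) (h2 : IsCompact C) (h3 : IsConnected C)
    (h4 : x ∈ C) : C ⊆ kap S x := fun _ hy => ⟨C, h1, h2, h3, h4, hy⟩

theorem isPreconnected_kap {S : Set X} {x : X} : IsPreconnected (kap S x) := by
  apply isPreconnected_of_forall x
  intro y hy
  obtain ⟨C, h1, h2, h3, h4, h5⟩ := hy
  exact ⟨C, subset_kap h1 h2 h3 h4, h4, h5, h3.isPreconnected⟩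

theorem isConnected_kap {S : Set X} {x : X} (h : x ∈ S) : IsConnected (kap S x) :=
  ⟨⟨x, self_mem_kap h⟩, isPreconnected_kap⟩

/-- Two points of a component are joined by a continuum inside the component. -/
theorem CRel.in_kap {S : Set X} {x y z : X} (hy : CRel S x y) (hz : CRel S x z) :
    CRel (kap S x) y z := by
  obtain ⟨C, h1, h2, h3, h4, h5⟩ := hy.symm.trans hz
  refine ⟨C, ?_, h2, h3, h4, h5⟩
  rw [kap_eq hy]
  exact subset_kap h1 h2 h3 h4

/-- Finitely many points of a component lie in a common continuum inside it. -/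
theorem exists_continuum_of_finite {S : Set X} {x : X} (hx : x ∈ S) {T : Set X} (hT : T.Finite)
    (hTS : T ⊆ kap S x) :
    ∃ C ⊆ kap S x, IsCompact C ∧ IsConnected C ∧ x ∈ C ∧ T ⊆ C := by
  induction T, hT using Set.Finite.induction_on with
  | empty =>
    exact ⟨{x}, singleton_subset_iff.2 (self_mem_kap hx), isCompact_singleton,
      isConnected_singleton, rfl, empty_subset _⟩
  | @insert a T _ _ ih =>
    obtain ⟨C, h1, h2, h3, h4, h5⟩ := ih ((subset_insert a T).trans hTS)
    obtain ⟨D, g1, g2, g3, g4, g5⟩ := hTS (mem_insert a T)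
    refine ⟨C ∪ D, union_subset h1 (subset_kap g1 g2 g3 g4), h2.union g2,
      IsConnected.union ⟨x, h4, g4⟩ h3 g3, Or.inl h4, ?_⟩
    exact insert_subset (Or.inr g5) (h5.trans subset_union_left)

end crel

section closedkap

variable {X : Type*} [MetricSpace X] [CompactSpace X]

/-- Continuum components are relatively closed. -/
theorem mem_kap_of_mem_closure (hA : PropA X) {S : Set X} {x y : X} (hx : x ∈ S)
    (hcl : x ∈ closure (kap S y)) : x ∈ kap S y := by
  by_contra hxQ
  set Q : Set X := kap S y with hQ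
  obtain ⟨q, hq⟩ : Q.Nonempty := closure_nonempty_iff.1 ⟨x, hcl⟩
  have hr0 : 0 < dist q x := dist_pos.2 fun h => hxQ (h ▸ hq)
  set r : ℕ → ℝ := fun n => dist q x / (n + 1) with hr
  have hrpos : ∀ n, 0 < r n := fun n => by positivity
  have hrle : ∀ n, r n ≤ dist q x := fun n => by
    apply div_le_self hr0.le
    have : (0 : ℝ) ≤ n := Nat.cast_nonneg n
    linarith
  have hranti : ∀ n, r (n + 1) ≤ r n := fun n => by
    simp only [hr]
    apply div_le_div_of_nonneg_left hr0.le (by positivity)
    push_cast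
    linarith
  have hrlim : Tendsto r atTop (𝓝 0) := by
    have h1 := (tendsto_one_div_add_atTop_nhds_zero_nat (𝕜 := ℝ)).const_mul (dist q x)
    rw [mul_zero] at h1
    refine h1.congr fun n => ?_
    simp only [hr]
    ring
  set P : ℕ → X → Set X := fun n z => kap (Q ∩ closedBall x (r n)) z with hP
  -- finiteness of the families
  have hfin : ∀ n, (P n '' (Q ∩ ball x (r n / 2))).Finite := by
    intro n
    apply hA (r n / 2) (by have := hrpos n; positivity)
    · rintro _ ⟨a, -, rfl⟩ _ ⟨b, -, rfl⟩ hab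
      rw [Function.onFun, Set.disjoint_left]
      intro z hz1 hz2
      exact hab ((kap_eq hz1).trans (kap_eq hz2).symm)
    · rintro _ ⟨z, ⟨hzQ, hzr⟩, rfl⟩
      rw [mem_ball] at hzr
      have hzB : z ∈ Q ∩ closedBall x (r n) :=
        ⟨hzQ, by rw [mem_closedBall]; linarith [hrpos n]⟩
      refine ⟨isConnected_kap hzB, ?_⟩
      obtain ⟨C, hCQ, hCc, hCcon, hzC, hqC⟩ := CRel.in_kap hzQ hq
      obtain ⟨w, hw, hwr⟩ := exists_far_of_component hCc hCcon.isPreconnected hzC
        (by linarith [hrpos n] : dist z x < r n) ⟨q, hqC, hrle n⟩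
      have hzCB : z ∈ C ∩ closedBall x (r n) := ⟨hzC, hzB.2⟩
      have hwP : w ∈ P n z := by
        refine ⟨connectedComponentIn (C ∩ closedBall x (r n)) z, ?_, ?_, ?_,
          mem_connectedComponentIn hzCB, hw⟩
        · exact (connectedComponentIn_subset _ _).trans (inter_subset_inter_left _ hCQ)
        · have hc : IsCompact (C ∩ closedBall x (r n)) := hCc.inter_right isClosed_closedBall
          exact hc.of_isClosed_subset (isClosed_connectedComponentIn hc.isClosed z)
            (connectedComponentIn_subset _ _)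
        · exact isConnected_connectedComponentIn_iff.2 hzCB
      have h1 := dist_le_diam hwP (self_mem_kap hzB : z ∈ P n z)
      have h2 : dist w x ≤ dist w z + dist z x := dist_triangle w z x
      show r n / 2 < Metric.diam (P n z)
      linarith
  obtain ⟨u, huQ, hux⟩ := mem_closure_iff_ultrafilter.1 hcl
  have hex : ∀ n, ∃ z ∈ Q ∩ ball x (r n / 2), P n z ∈ u := by
    intro n
    have h1 : Q ∩ ball x (r n / 2) ∈ u :=
      inter_mem huQ (hux (ball_mem_nhds x (by have := hrpos n; positivity)))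
    have h2 : ⋃₀ (P n '' (Q ∩ ball x (r n / 2))) ∈ u := by
      refine mem_of_superset h1 ?_
      intro z hz
      refine ⟨P n z, ⟨z, hz, rfl⟩, self_mem_kap ⟨hz.1, ?_⟩⟩
      have := mem_ball.1 hz.2
      rw [mem_closedBall]
      linarith [hrpos n]
    rw [Ultrafilter.finite_sUnion_mem_iff (hfin n)] at h2
    obtain ⟨_, ⟨z, hz, rfl⟩, hzu⟩ := h2
    exact ⟨z, hz, hzu⟩
  choose z hz hzu using hex
  have hnest : ∀ n, P (n + 1) (z (n + 1)) ⊆ P n (z n) := by
    intro n
    obtain ⟨w, hw1, hw2⟩ := Ultrafilter.nonempty_of_mem (inter_mem (hzu (n + 1)) (hzu n))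
    have e1 : P (n + 1) (z (n + 1)) = P (n + 1) w := kap_eq hw1
    have e2 : P n (z n) = P n w := kap_eq hw2
    rw [e1, e2]
    intro v hv
    exact CRel.mono (inter_subset_inter_right _ (closedBall_subset_closedBall (hranti n))) hv
  have hne : ∀ n, ∃ v, v ∈ P n (z n) := fun n => Ultrafilter.nonempty_of_mem (hzu n)
  choose v hv using hne
  have hrel : ∀ n, CRel (Q ∩ closedBall x (r n)) (v n) (v (n + 1)) := fun n =>
    (CRel.symm (hv n)).trans (hnest n (hv (n + 1)))
  choose C hCs hCc hCcon hC1 hC2 using hrel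
  have hUcon : IsConnected (⋃ n, C n) := by
    apply IsConnected.iUnion_of_chain hCcon
    intro n
    exact ⟨v (n + 1), hC2 n, hC1 (n + 1)⟩
  have hclosed : closure (⋃ n, C n) ⊆ insert x (⋃ n, C n) := by
    intro w hw
    by_cases hwx : w = x
    · exact Or.inl hwx
    right
    have hd : 0 < dist w x := dist_pos.2 hwx
    obtain ⟨N, hN⟩ := ((tendsto_order.1 hrlim).2 (dist w x / 2) (by positivity)).exists_forall_of_atTop
    have hcl' : IsClosed ((⋃ n ∈ {n | n < N}, C n) ∪ closedBall x (dist w x / 2)) := by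
      apply IsClosed.union _ isClosed_closedBall
      exact (Set.finite_lt_nat N).isClosed_biUnion fun n _ => (hCc n).isClosed
    have hsub : (⋃ n, C n) ⊆ (⋃ n ∈ {n | n < N}, C n) ∪ closedBall x (dist w x / 2) := by
      intro t ht
      obtain ⟨n, hn⟩ := mem_iUnion.1 ht
      by_cases hnN : n < N
      · left
        simp only [mem_iUnion]
        exact ⟨n, hnN, hn⟩
      · right
        have h1 := mem_closedBall.1 (hCs n hn).2
        have h2 := hN n (not_lt.1 hnN)
        rw [mem_closedBall]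
        linarith
    rcases hcl'.closure_subset_iff.2 hsub hw with h | h
    · simp only [mem_iUnion] at h
      obtain ⟨n, -, hn⟩ := h
      exact mem_iUnion.2 ⟨n, hn⟩
    · rw [mem_closedBall] at h
      linarith
  have hxcl : x ∈ closure (⋃ n, C n) := by
    rw [Metric.mem_closure_iff]
    intro ε hε
    obtain ⟨N, hN⟩ := ((tendsto_order.1 hrlim).2 ε hε).exists_forall_of_atTop
    refine ⟨v N, mem_iUnion.2 ⟨N, hC1 N⟩, ?_⟩
    have h1 := mem_closedBall.1 (hCs N (hC1 N)).2
    have h2 := hN N le_rfl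
    rw [dist_comm]
    linarith
  apply hxQ
  have hv0 : v 0 ∈ Q := (hCs 0 (hC1 0)).1
  have : CRel S (v 0) x := by
    refine ⟨closure (⋃ n, C n), ?_, isClosed_closure.isCompact, hUcon.closure,
      subset_closure (mem_iUnion.2 ⟨0, hC1 0⟩), hxcl⟩
    intro w hw
    rcases hclosed hw with rfl | h
    · exact hx
    · obtain ⟨n, hn⟩ := mem_iUnion.1 h
      exact kap_subset (hCs n hn).1
  exact CRel.trans hv0 this

/-- Version of relative closedness with the closure on the left. -/
theorem closure_kap_inter_subset (hA : PropA X) {S : Set X} {y : X} :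
    closure (kap S y) ∩ S ⊆ kap S y := fun _ hx => mem_kap_of_mem_closure hA hx.2 hx.1

end closedkap

section chain

variable {X : Type*} [TopologicalSpace X]

/-- Chain lemma: if the points of the connected set `C ⊆ D` have connected neighbourhoods in `D`
with the property `P` and `P` passes to unions of two meeting sets, then any two points of `C` lie
in a connected subset of `D` with property `P`. -/
theorem chain_lemma {C D : Set X} (hC : IsPreconnected C) (P : Set X → Prop)
    (hP : ∀ s t, P s → P t → (s ∩ t).Nonempty → P (s ∪ t))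
    (hloc : ∀ u ∈ C, ∃ N ⊆ D, IsPreconnected N ∧ u ∈ N ∧ N ∈ 𝓝[C] u ∧ P N) {x y : X}
    (hx : x ∈ C) (hy : y ∈ C) : ∃ E ⊆ D, IsPreconnected E ∧ x ∈ E ∧ y ∈ E ∧ P E := by
  set R : Set X := {u | ∃ E ⊆ D, IsPreconnected E ∧ x ∈ E ∧ u ∈ E ∧ P E} with hR
  have hxR : x ∈ R := by
    obtain ⟨N, h1, h2, h3, -, h5⟩ := hloc x hx
    exact ⟨N, h1, h2, h3, h3, h5⟩
  -- neighbourhoods are inside or outside `R`
  have key : ∀ u ∈ C, ∃ O, IsOpen O ∧ u ∈ O ∧ ((∃ w ∈ O ∩ C, w ∈ R) → O ∩ C ⊆ R) := by
    intro u hu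
    obtain ⟨N, h1, h2, h3, h4, h5⟩ := hloc u hu
    obtain ⟨O, hO, huO, hON⟩ := mem_nhdsWithin.1 h4
    refine ⟨O, hO, huO, ?_⟩
    rintro ⟨w, hw, E, g1, g2, g3, g4, g5⟩ v hv
    have hwN : w ∈ N := hON hw
    refine ⟨E ∪ N, union_subset g1 h1, IsPreconnected.union w g4 hwN g2 h2, Or.inl g3,
      Or.inr (hON hv), hP _ _ g5 h5 ⟨w, g4, hwN⟩⟩
  choose! O hO huO hOR using key
  by_contra hyR
  have hyR' : y ∉ R := hyR
  obtain ⟨w, hwC, hw1, hw2⟩ := hC (⋃ u ∈ C ∩ R, O u) (⋃ u ∈ C \ R, O u)
    (isOpen_biUnion fun u hu => hO u hu.1) (isOpen_biUnion fun u hu => hO u hu.1)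
    (by
      intro u hu
      by_cases h : u ∈ R
      · exact Or.inl (mem_biUnion (show u ∈ C ∩ R from ⟨hu, h⟩) (huO u hu))
      · exact Or.inr (mem_biUnion (show u ∈ C \ R from ⟨hu, h⟩) (huO u hu)))
    ⟨x, hx, mem_biUnion (show x ∈ C ∩ R from ⟨hx, hxR⟩) (huO x hx)⟩
    ⟨y, hy, mem_biUnion (show y ∈ C \ R from ⟨hy, hyR'⟩) (huO y hy)⟩
  simp only [mem_iUnion] at hw1 hw2
  obtain ⟨a, ⟨haC, haR⟩, hwa⟩ := hw1
  obtain ⟨b, ⟨hbC, hbR⟩, hwb⟩ := hw2
  have h1 : w ∈ R := hOR a haC ⟨a, ⟨huO a haC, haC⟩, haR⟩ ⟨hwa, hwC⟩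
  exact hbR (hOR b hbC ⟨w, ⟨hwb, hwC⟩, h1⟩ ⟨huO b hbC, hbC⟩)

end chain

section openconn

variable {X : Type*} [MetricSpace X] [CompactSpace X]

/-- A connected open subset of a locally connected continuum is continuum-connected. -/
theorem crel_of_isOpen (hA : PropA X) [PreconnectedSpace X] {G : Set X} (hG : IsOpen G)
    (hGc : IsPreconnected G) {x y : X} (hx : x ∈ G) (hy : y ∈ G) : CRel G x y := by
  obtain ⟨E, -, -, hxE, hyE, K, hKG, hKc, hKcon, hEK⟩ := chain_lemma (D := G) hGc
    (fun s => ∃ K ⊆ G, IsCompact K ∧ IsPreconnected K ∧ s ⊆ K)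
    (by
      rintro s t ⟨K, h1, h2, h3, h4⟩ ⟨L, g1, g2, g3, g4⟩ ⟨w, hw1, hw2⟩
      exact ⟨K ∪ L, union_subset h1 g1, h2.union g2,
        IsPreconnected.union w (h4 hw1) (g4 hw2) h3 g3,
        union_subset_union h4 g4⟩)
    (by
      intro u hu
      obtain ⟨r, hr, hrG⟩ := Metric.nhds_basis_closedBall.mem_iff.1 (hG.mem_nhds hu)
      obtain ⟨C, hC, hCc, hCcon, huC, ρ, hρ, hρC⟩ :=
        locconn_compact hA isCompact_univ isPreconnected_univ (mem_univ u) hr
      have hCG : C ⊆ G := fun w hw => hrG (hC hw).2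
      refine ⟨C, hCG, hCcon.isPreconnected, huC, ?_, C, hCG, hCc, hCcon.isPreconnected,
        Subset.rfl⟩
      exact mem_nhdsWithin_of_mem_nhds
        (mem_of_superset (ball_mem_nhds u hρ) fun w hw => hρC ⟨hw, mem_univ w⟩))
    hx hy
  exact ⟨K, hKG, hKc, ⟨⟨x, hEK hxE⟩, hKcon⟩, hEK hxE, hEK hyE⟩

end openconn

end Pool.Agent.ContB
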