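import Pool.Agent.ContB.Tree

set_option autoImplicit false

open Set Metric Filter Topology

namespace Pool.Agent.ContB

section kk

variable {X : Type} [MetricSpace X]

/-- The limit set of a state. -/
def KK (Mf : Set X × Set X → ℕ → Set (Set X)) (Lf : Set X × Set X → ℕ → Set (Set X × Set X))
    (a : (Set X × Set X) × ℕ) : Set X :=
  closure (⋃₀ (nod Mf Lf a) ∪ a.1.2)

variable {S : Set X} {Mf : Set X × Set X → ℕ → Set (Set X)}
  {Lf : Set X × Set X → ℕ → Set (Set X × Set X)}

theorem W_subset_KK {a : (Set X × Set X) × ℕ} : a.1.2 ⊆ KK Mf Lf a :=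
  subset_union_right.trans subset_closure

theorem nod_subset_KK {a : (Set X × Set X) × ℕ} {m : Set X} (hm : m ∈ nod Mf Lf a) :
    m ⊆ KK Mf Lf a :=
  fun _ hx => subset_closure (Or.inl ⟨m, hm, hx⟩)

theorem KK_subset_closure (h : IsRefFun S Mf Lf) {a : (Set X × Set X) × ℕ}
    (ha : IsLink S a.1.1 a.1.2) : KK Mf Lf a ⊆ closure a.1.1 := by
  apply closure_minimal _ isClosed_closure
  exact union_subset ((sUnion_nod_subset h ha).trans subset_closure) ha.Wcl

theorem KK_mono (h : IsRefFun S Mf Lf) {a b : (Set X × Set X) × ℕ}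
    (ha : IsLink S a.1.1 a.1.2) (hab : Desc Lf a b) : KK Mf Lf b ⊆ KK Mf Lf a := by
  apply closure_mono
  apply union_subset
  · exact (sUnion_subset_sUnion (nod_mono hab)).trans subset_union_left
  · exact (desc_W h ha hab).trans (union_comm _ _).subset

variable [CompactSpace X]

/-- The limit set of a state is connected. -/
theorem isPreconnected_KK (h : IsRefFun S Mf Lf) {a : (Set X × Set X) × ℕ}
    (ha : IsLink S a.1.1 a.1.2) : IsPreconnected (KK Mf Lf a) := by
  rw [KK, isPreconnected_iff_subset_of_fully_disjoint_closed isClosed_closure]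
  intro u v hu hv huv hd
  obtain ⟨δ, hδ, hthick⟩ := hd.exists_thickenings hu.isCompact hv
  have hdist : ∀ x ∈ u, ∀ y ∈ v, δ ≤ dist x y := by
    intro x hx y hy
    by_contra hcon
    push Not at hcon
    apply Set.disjoint_left.1 hthick (self_subset_thickening hδ u hx)
    rw [mem_thickening_iff]
    exact ⟨y, hy, hcon⟩
  obtain ⟨N, hN⟩ := exists_nat_gt (1 / δ)
  -- deep links are one-sided
  have hdeep : ∀ b, Desc Lf a b → a.2 < b.2 → N ≤ b.2 → b.1.2 ⊆ u ∨ Disjoint b.1.2 u := by
    intro b hab hlt hNb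
    have hbK : b.1.2 ⊆ KK Mf Lf a := W_subset_KK.trans (KK_mono h ha hab)
    by_contra hcon
    push Not at hcon
    obtain ⟨h1, h2⟩ := hcon
    obtain ⟨y, hy, hyu⟩ := not_subset.1 h1
    obtain ⟨x, hx, hxu⟩ := not_disjoint_iff.1 h2
    have hyv : y ∈ v := (huv (hbK hy)).resolve_left hyu
    have h3 := hdist x hxu y hyv
    have hlb := desc_link h ha hab
    have h4 := dist_le_diam (hlb.Wcl hx) (hlb.Wcl hy)
    rw [Metric.diam_closure] at h4
    have h5 := desc_diam h ha hab hlt
    have hb0 : (0 : ℝ) < b.2 := by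
      have : 0 < b.2 := by omega
      exact_mod_cast this
    have h6 : (1 : ℝ) / b.2 < δ := by
      rw [div_lt_iff₀ hb0]
      rw [div_lt_iff₀ hδ] at hN
      have h7 : (N : ℝ) ≤ b.2 := by exact_mod_cast hNb
      have h8 : (N : ℝ) * δ ≤ b.2 * δ := mul_le_mul_of_nonneg_right h7 hδ.le
      rw [mul_comm δ]
      linarith
    linarith
  -- continua are one-sided
  have hone : ∀ m ∈ nod Mf Lf a, m ⊆ u ∨ Disjoint m u := by
    intro m hm
    have h1 := (nod_prop h ha hm).2.1.isPreconnected
    rw [isPreconnected_iff_subset_of_disjoint_closed] at h1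
    rcases h1 u v hu hv ((nod_subset_KK hm).trans huv) (by
      rw [hd.inter_eq, inter_empty]) with h2 | h2
    · exact Or.inl h2
    · exact Or.inr (hd.symm.mono_left h2)
  -- all links are one-sided
  have hall : ∀ n b, Desc Lf a b → N + a.2 + 1 ≤ b.2 + n → b.1.2 ⊆ u ∨ Disjoint b.1.2 u := by
    intro n
    induction n with
    | zero =>
      intro b hab hb
      exact hdeep b hab (by omega) (by omega)
    | succ n ih =>
      intro b hab hb
      have hr := h b.1 b.2 (desc_link h ha hab)
      rcases hr.R1 u (fun m hm => hone m (nod_mono hab (subset_nod hm))) (by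
        intro l hl
        have hch : Ch Lf b (l, b.2 + 1) := ⟨hl, rfl⟩
        exact ih (l, b.2 + 1) (Relation.ReflTransGen.tail hab hch) (by
          show N + a.2 + 1 ≤ (b.2 + 1) + n
          omega)) with h1 | h1
      · exact Or.inl (subset_union_left.trans h1)
      · exact Or.inr (h1.mono_left subset_union_left)
  have hall' : ∀ b, Desc Lf a b → b.1.2 ⊆ u ∨ Disjoint b.1.2 u := fun b hab =>
    hall (N + a.2 + 1) b hab (by omega)
  have hR : ∀ b, Desc Lf a b → (b.1.2 ∪ ⋃₀ (Mf b.1 b.2) ⊆ u) ∨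
      Disjoint (b.1.2 ∪ ⋃₀ (Mf b.1 b.2)) u := by
    intro b hab
    have hr := h b.1 b.2 (desc_link h ha hab)
    apply hr.R1 u (fun m hm => hone m (nod_mono hab (subset_nod hm)))
    intro l hl
    have hch : Ch Lf b (l, b.2 + 1) := ⟨hl, rfl⟩
    exact hall' (l, b.2 + 1) (Relation.ReflTransGen.tail hab hch)
  rcases hall' a Desc.rfl with hside | hside
  · left
    have hstep : ∀ b, Desc Lf a b → b.1.2 ⊆ u ∧ b.1.2 ∪ ⋃₀ (Mf b.1 b.2) ⊆ u := by
      intro b hab
      have key : ∀ c, Desc Lf a c → c.1.2 ⊆ u → c.1.2 ∪ ⋃₀ (Mf c.1 c.2) ⊆ u := by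
        intro c hac hc
        rcases hR c hac with h1 | h1
        · exact h1
        · obtain ⟨w, hw⟩ := (desc_link h ha hac).Wne
          exact absurd (hc hw) (Set.disjoint_left.1 h1 (Or.inl hw))
      have h1 : b.1.2 ⊆ u := by
        induction hab with
        | refl => exact hside
        | @tail b c hab hbc ih =>
          exact ((h b.1 b.2 (desc_link h ha hab)).LW c.1 hbc.1).trans (key b hab ih)
      exact ⟨h1, key b hab h1⟩
    apply closure_minimal _ hu
    apply union_subset _ hside
    apply sUnion_subset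
    rintro m ⟨b, hab, hm⟩
    exact fun x hx => (hstep b hab).2 (Or.inr ⟨m, hm, hx⟩)
  · right
    have hstep : ∀ b, Desc Lf a b → Disjoint b.1.2 u ∧
        Disjoint (b.1.2 ∪ ⋃₀ (Mf b.1 b.2)) u := by
      intro b hab
      have key : ∀ c, Desc Lf a c → Disjoint c.1.2 u → Disjoint (c.1.2 ∪ ⋃₀ (Mf c.1 c.2)) u := by
        intro c hac hc
        rcases hR c hac with h1 | h1
        · obtain ⟨w, hw⟩ := (desc_link h ha hac).Wne
          exact absurd (h1 (Or.inl hw)) (Set.disjoint_left.1 hc hw)
        · exact h1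
      have h1 : Disjoint b.1.2 u := by
        induction hab with
        | refl => exact hside
        | @tail b c hab hbc ih =>
          exact (key b hab ih).mono_left ((h b.1 b.2 (desc_link h ha hab)).LW c.1 hbc.1)
      exact ⟨h1, key b hab h1⟩
    have hsub : ⋃₀ (nod Mf Lf a) ∪ a.1.2 ⊆ v := by
      intro x hx
      have hxu : x ∉ u := by
        rcases hx with ⟨m, ⟨b, hab, hm⟩, hx⟩ | hx
        · exact Set.disjoint_left.1 (hstep b hab).2 (Or.inr ⟨m, hm, hx⟩)
        · exact Set.disjoint_left.1 hside hx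
      exact (huv (subset_closure hx)).resolve_left hxu
    exact closure_minimal hsub hv

end kk

end Pool.Agent.ContB
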