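import Pool.Agent.ContB.Basic

set_option autoImplicit false

open Set Metric Filter Topology

namespace Pool.Agent.ContB

section chains

variable {X : Type*} [MetricSpace X]

/-- Finite chains in a set, as eventually constant sequences. -/
def HasChain (A : Set X) (η : ℝ) (x y : X) : Prop :=
  ∃ (m : ℕ) (a : ℕ → X), a 0 = x ∧ (∀ i, m ≤ i → a i = y) ∧ (∀ i, a i ∈ A) ∧
    ∀ i, dist (a i) (a (i + 1)) < η

theorem hasChain_of_dist {A : Set X} {η : ℝ} {x y : X} (hη : 0 < η) (hx : x ∈ A) (hy : y ∈ A)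
    (h : dist x y < η) : HasChain A η x y := by
  refine ⟨1, fun i => if i = 0 then x else y, by simp, ?_, ?_, ?_⟩
  · intro i hi
    have : i ≠ 0 := by omega
    simp [this]
  · intro i
    by_cases hi : i = 0 <;> simp [hi, hx, hy]
  · intro i
    by_cases hi : i = 0
    · simp [hi, h]
    · simp [hi, hη]

theorem HasChain.trans {A : Set X} {η : ℝ} {x y z : X} (h : HasChain A η x y)
    (h' : HasChain A η y z) : HasChain A η x z := by
  obtain ⟨m, a, a0, am, aA, ad⟩ := h
  obtain ⟨k, b, b0, bk, bA, bd⟩ := h'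
  refine ⟨m + k, fun i => if i < m then a i else b (i - m), ?_, ?_, ?_, ?_⟩
  · by_cases hm : 0 < m
    · simp [hm, a0]
    · have : m = 0 := by omega
      subst this
      have := am 0 le_rfl
      simp only [lt_self_iff_false, ↓reduceIte, Nat.sub_self]
      rw [b0, ← this, a0]
  · intro i hi
    have h1 : ¬ i < m := by omega
    simp only [h1, ↓reduceIte]
    exact bk _ (by omega)
  · intro i
    by_cases hi : i < m
    · simp only [hi, ↓reduceIte]
      exact aA i
    · simp only [hi, ↓reduceIte]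
      exact bA _
  · intro i
    by_cases hi : i + 1 < m
    · have h1 : i < m := by omega
      simp only [hi, h1, ↓reduceIte]
      exact ad i
    · by_cases h1 : i < m
      · have h2 : i + 1 = m := by omega
        have h3 : i + 1 - m = 0 := by omega
        simp only [hi, h1, h3, ↓reduceIte]
        rw [b0, ← am (i + 1) h2.ge]
        exact ad i
      · have h2 : i + 1 - m = (i - m) + 1 := by omega
        simp only [hi, h1, h2, ↓reduceIte]
        exact bd _

theorem HasChain.symm {A : Set X} {η : ℝ} {x y : X} (hη : 0 < η) (h : HasChain A η x y) :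
    HasChain A η y x := by
  obtain ⟨m, a, a0, am, aA, ad⟩ := h
  refine ⟨m, fun i => a (m - i), ?_, ?_, fun i => aA _, ?_⟩
  · exact am _ (by simp)
  · intro i hi
    have : m - i = 0 := by omega
    simp only [this, a0]
  · intro i
    by_cases hi : i < m
    · have h1 : m - i = (m - (i + 1)) + 1 := by omega
      show dist (a (m - i)) (a (m - (i + 1))) < η
      rw [h1, dist_comm]
      exact ad _
    · have h1 : m - i = 0 := by omega
      have h2 : m - (i + 1) = 0 := by omega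
      show dist (a (m - i)) (a (m - (i + 1))) < η
      rw [h1, h2, dist_self]
      exact hη

theorem hasChain_of_isPreconnected {A : Set X} (hA : IsPreconnected A) {η : ℝ} (hη : 0 < η)
    {x y : X} (hx : x ∈ A) (hy : y ∈ A) : HasChain A η x y := by
  apply hA.induction₂' (HasChain A η) _ _ hx hy
  · intro z hz
    have h1 : ∀ᶠ w in 𝓝[A] z, w ∈ A := self_mem_nhdsWithin
    have h2 : ∀ᶠ w in 𝓝[A] z, dist w z < η :=
      mem_nhdsWithin_of_mem_nhds (ball_mem_nhds z hη)
    filter_upwards [h1, h2] with w hw hwz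
    have := hasChain_of_dist hη hw hz hwz
    exact ⟨this.symm hη, this⟩
  · intro u v w _ _ _ h1 h2
    exact h1.trans h2

/-- One refinement step. -/
theorem exists_refined_chain {C : Set X} {δ ε η : ℝ} (hη : 0 < η)
    (hloc : ∀ u ∈ C, ∀ v ∈ C, dist u v < δ → ∃ A ⊆ C ∩ closedBall u ε, IsPreconnected A ∧
      u ∈ A ∧ v ∈ A) (hε : 0 ≤ ε) {x y : X} {K : ℕ} {c : ℕ → X} (h0 : c 0 = x)
    (hKy : ∀ i, K ≤ i → c i = y) (hC : ∀ i, c i ∈ C) (hd : ∀ i, dist (c i) (c (i + 1)) < δ) :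
    ∃ (m : ℕ) (c' : ℕ → X), 0 < m ∧ c' 0 = x ∧ (∀ i, K * m ≤ i → c' i = y) ∧ (∀ i, c' i ∈ C) ∧
      (∀ i, dist (c' i) (c' (i + 1)) < η) ∧ ∀ i, dist (c (i / m)) (c' i) ≤ ε := by
  have hex : ∀ i, ∃ (m : ℕ) (a : ℕ → X), a 0 = c i ∧ (∀ j, m ≤ j → a j = c (i + 1)) ∧
      (∀ j, a j ∈ C ∧ dist (c i) (a j) ≤ ε) ∧ (∀ j, dist (a j) (a (j + 1)) < η) ∧
      (K ≤ i → m = 0) := by
    intro i
    by_cases hi : K ≤ i
    · refine ⟨0, fun _ => y, ?_, ?_, ?_, ?_, fun _ => rfl⟩
      · exact (hKy i hi).symm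
      · intro j _
        exact (hKy (i + 1) (by omega)).symm
      · intro j
        refine ⟨(hKy i hi) ▸ hC i, ?_⟩
        rw [hKy i hi, dist_self]
        exact hε
      · intro j
        rw [dist_self]
        exact hη
    · obtain ⟨A, hA, hAc, h1, h2⟩ := hloc _ (hC i) _ (hC (i + 1)) (hd i)
      obtain ⟨m, a, a0, am, aA, ad⟩ := hasChain_of_isPreconnected hAc hη h1 h2
      refine ⟨m, a, a0, am, ?_, ad, fun h => absurd h hi⟩
      intro j
      have := hA (aA j)
      refine ⟨this.1, ?_⟩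
      rw [dist_comm]
      exact this.2
  choose m a ha0 ham haC had hm0 using hex
  set M : ℕ := (Finset.range K).sup m + 1 with hM
  have hmM : ∀ i, m i < M := by
    intro i
    by_cases hi : K ≤ i
    · rw [hm0 i hi]
      omega
    · have : m i ≤ (Finset.range K).sup m := Finset.le_sup (Finset.mem_range.2 (by omega))
      omega
  have hMpos : 0 < M := by omega
  refine ⟨M, fun i => a (i / M) (i % M), hMpos, ?_, ?_, ?_, ?_, ?_⟩
  · simp only [Nat.zero_div, Nat.zero_mod]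
    rw [ha0, h0]
  · intro i hi
    have h1 : K ≤ i / M := (Nat.le_div_iff_mul_le hMpos).2 hi
    show a (i / M) (i % M) = y
    rw [ham (i / M) (i % M) (by rw [hm0 _ h1]; omega), hKy _ (by omega)]
  · intro i
    exact (haC _ _).1
  · intro i
    show dist (a (i / M) (i % M)) (a ((i + 1) / M) ((i + 1) % M)) < η
    by_cases h : (i + 1) % M = 0
    · have h1 : (i + 1) / M = i / M + 1 := by
        rw [Nat.succ_div_of_dvd (Nat.dvd_of_mod_eq_zero h)]
      have h2 : i % M = M - 1 := by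
        have := Nat.mod_lt i hMpos
        by_contra hne
        have h3 : i % M + 1 < M := by omega
        have h4 : (i + 1) % M = i % M + 1 := by
          rw [Nat.add_mod, Nat.mod_eq_of_lt (a := 1) (by omega), Nat.mod_eq_of_lt h3]
        omega
      rw [h, h1, ha0, ham (i / M) (i % M) (by have := hmM (i / M); omega), dist_self]
      exact hη
    · have h1 : (i + 1) / M = i / M := by
        rw [Nat.succ_div_of_not_dvd (fun hdvd => h (Nat.mod_eq_zero_of_dvd hdvd))]
      have h2 : (i + 1) % M = i % M + 1 := by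
        have h5 := Nat.div_add_mod i M
        have h6 := Nat.div_add_mod (i + 1) M
        rw [h1] at h6
        omega
      rw [h1, h2]
      exact had _ _
  · intro i
    exact (haC _ _).2

end chains

section path

variable {X : Type*} [MetricSpace X] [CompactSpace X]

/-- Uniform local connectedness of continua. -/
theorem uniform_locconn (hA : PropA X) {C : Set X} (hC : IsCompact C) (hCc : IsPreconnected C)
    {ε : ℝ} (hε : 0 < ε) : ∃ δ > 0, δ ≤ ε ∧ ∀ u ∈ C, ∀ v ∈ C, dist u v < δ →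
      ∃ A ⊆ C ∩ closedBall u ε, IsPreconnected A ∧ u ∈ A ∧ v ∈ A := by
  have hex : ∀ u : C, ∃ A ⊆ C ∩ closedBall (u : X) (ε / 2), IsPreconnected A ∧
      ∃ ρ > 0, ball (u : X) ρ ∩ C ⊆ A := by
    rintro ⟨u, hu⟩
    obtain ⟨A, h1, -, h3, -, h5⟩ := locconn_compact hA hC hCc hu (half_pos hε)
    exact ⟨A, h1, h3.isPreconnected, h5⟩
  choose A hA1 hA2 ρ hρ hA3 using hex
  obtain ⟨δ, hδ, hL⟩ := lebesgue_number_lemma_of_metric (c := fun u : C => ball (u : X) (ρ u)) hC
    (fun _ => isOpen_ball) (fun x hx => mem_iUnion.2 ⟨⟨x, hx⟩, mem_ball_self (hρ _)⟩)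
  refine ⟨min δ ε, lt_min hδ hε, min_le_right _ _, ?_⟩
  intro u hu v hv huv
  obtain ⟨w, hw⟩ := hL u hu
  have huA : u ∈ A w := hA3 w ⟨hw (mem_ball_self hδ), hu⟩
  have hvA : v ∈ A w := hA3 w ⟨hw (by
    rw [mem_ball, dist_comm]
    exact huv.trans_le (min_le_left _ _)), hv⟩
  refine ⟨A w, ?_, hA2 w, huA, hvA⟩
  intro z hz
  refine ⟨(hA1 w hz).1, ?_⟩
  have h1 := mem_closedBall.1 (hA1 w hz).2
  have h2 := mem_closedBall.1 (hA1 w huA).2
  rw [mem_closedBall]
  have h3 : dist z u ≤ dist z w + dist (w : X) u := dist_triangle _ _ _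
  rw [dist_comm (w : X) u] at h3
  linarith

/-- Subcontinua of a compact space with (A) are path-connected. -/
theorem joinedIn_of_continuum (hA : PropA X) {C : Set X} (hC : IsCompact C)
    (hCc : IsPreconnected C) {x y : X} (hx : x ∈ C) (hy : y ∈ C) : JoinedIn C x y := by
  have hul : ∀ n : ℕ, ∃ δ > 0, δ ≤ (1 / 2 : ℝ) ^ n ∧ ∀ u ∈ C, ∀ v ∈ C, dist u v < δ →
      ∃ A ⊆ C ∩ closedBall u ((1 / 2 : ℝ) ^ n), IsPreconnected A ∧ u ∈ A ∧ v ∈ A := fun n =>
    uniform_locconn hA hC hCc (by positivity)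
  choose δ hδ hδε hloc using hul
  -- good data
  set Good : ℕ → (ℕ × (ℕ → X)) → Prop := fun n s => 0 < s.1 ∧ s.2 0 = x ∧
    (∀ i, s.1 ≤ i → s.2 i = y) ∧ (∀ i, s.2 i ∈ C) ∧ ∀ i, dist (s.2 i) (s.2 (i + 1)) < δ n
    with hGood
  have hstep : ∀ (n : ℕ) (s : ℕ × (ℕ → X)), ∃ s' : ℕ × (ℕ → X), Good n s →
      (Good (n + 1) s' ∧ ∃ m > 0, s'.1 = s.1 * m ∧
        ∀ i, dist (s.2 (i / m)) (s'.2 i) ≤ (1 / 2 : ℝ) ^ n) := by
    intro n s
    by_cases h : Good n s
    · obtain ⟨h1, h2, h3, h4, h5⟩ := h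
      obtain ⟨m, c', hm, g1, g2, g3, g4, g5⟩ := exists_refined_chain (hδ (n + 1)) (hloc n)
        (by positivity) h2 h3 h4 h5
      exact ⟨(s.1 * m, c'), fun _ => ⟨⟨Nat.mul_pos h1 hm, g1, g2, g3, g4⟩, m, hm, rfl, g5⟩⟩
    · exact ⟨s, fun h' => absurd h' h⟩
  choose F hF using hstep
  obtain ⟨m₀, a₀, a00, a0m, a0A, a0d⟩ := hasChain_of_isPreconnected hCc (hδ 0) hx hy
  set s : ℕ → ℕ × (ℕ → X) := fun n => Nat.rec (m₀ + 1, a₀) (fun n s => F n s) n with hs
  have hs0 : s 0 = (m₀ + 1, a₀) := rfl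
  have hs1 : ∀ n, s (n + 1) = F n (s n) := fun n => rfl
  have hgood : ∀ n, Good n (s n) := by
    intro n
    induction n with
    | zero => exact ⟨Nat.succ_pos _, a00, fun i hi => a0m i (by
        have : m₀ + 1 ≤ i := hi
        omega), a0A, a0d⟩
    | succ n ih => rw [hs1]; exact (hF n (s n) ih).1
  have hrel : ∀ n, ∃ m > 0, (s (n + 1)).1 = (s n).1 * m ∧
      ∀ i, dist ((s n).2 (i / m)) ((s (n + 1)).2 i) ≤ (1 / 2 : ℝ) ^ n := by
    intro n
    rw [hs1]
    exact (hF n (s n) (hgood n)).2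
  set f : ℕ → ℝ → X := fun n t => (s n).2 ⌊((s n).1 : ℝ) * t⌋₊ with hf
  have hfstep : ∀ t n, dist (f n t) (f (n + 1) t) ≤ 1 * (1 / 2 : ℝ) ^ n := by
    intro t n
    obtain ⟨m, hm, h1, h2⟩ := hrel n
    have h3 : ⌊((s n).1 : ℝ) * t⌋₊ = ⌊((s (n + 1)).1 : ℝ) * t⌋₊ / m := by
      rw [← Nat.floor_div_natCast, h1]
      congr 1
      push_cast
      field_simp
    simp only [hf]
    rw [h3, one_mul]
    exact h2 _
  have hcauchy : ∀ t, CauchySeq fun n => f n t := fun t =>
    cauchySeq_of_le_geometric (1 / 2) 1 (by norm_num) (hfstep t)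
  have hlim : ∀ t, ∃ z, Tendsto (fun n => f n t) atTop (𝓝 z) := fun t =>
    cauchySeq_tendsto_of_complete (hcauchy t)
  choose g hg using hlim
  have hgd : ∀ t n, dist (f n t) (g t) ≤ 2 * (1 / 2 : ℝ) ^ n := by
    intro t n
    have := dist_le_of_le_geometric_of_tendsto (1 / 2) 1 (by norm_num) (hfstep t) (hg t) n
    refine this.trans (le_of_eq ?_)
    ring
  have hgC : ∀ t, g t ∈ C := fun t =>
    hC.isClosed.mem_of_tendsto (hg t) (Eventually.of_forall fun n => (hgood n).2.2.2.1 _)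
  have hfosc : ∀ n t u, 0 ≤ t → t ≤ u → u - t < 1 / ((s n).1 : ℝ) →
      dist (f n t) (f n u) ≤ (1 / 2 : ℝ) ^ n := by
    intro n t u ht htu hut
    have hpos : (0 : ℝ) < (s n).1 := by exact_mod_cast (hgood n).1
    have h1 : ⌊((s n).1 : ℝ) * t⌋₊ ≤ ⌊((s n).1 : ℝ) * u⌋₊ :=
      Nat.floor_mono (mul_le_mul_of_nonneg_left htu hpos.le)
    have h2 : ⌊((s n).1 : ℝ) * u⌋₊ ≤ ⌊((s n).1 : ℝ) * t⌋₊ + 1 := by
      have h3 : ((s n).1 : ℝ) * u ≤ ((s n).1 : ℝ) * t + 1 := by
        rw [lt_div_iff₀ hpos] at hut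
        nlinarith
      have h4 := Nat.floor_mono h3
      rwa [Nat.floor_add_one (by positivity)] at h4
    simp only [hf]
    rcases (by omega : ⌊((s n).1 : ℝ) * u⌋₊ = ⌊((s n).1 : ℝ) * t⌋₊ ∨
      ⌊((s n).1 : ℝ) * u⌋₊ = ⌊((s n).1 : ℝ) * t⌋₊ + 1) with h | h
    · rw [h, dist_self]
      positivity
    · rw [h]
      exact ((hgood n).2.2.2.2 _).le.trans (hδε n)
  have hgosc : ∀ n t u, 0 ≤ t → t ≤ u → u - t < 1 / ((s n).1 : ℝ) →
      dist (g t) (g u) ≤ 5 * (1 / 2 : ℝ) ^ n := by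
    intro n t u ht htu hut
    have h1 := hfosc n t u ht htu hut
    have h2 := hgd t n
    have h3 := hgd u n
    have h4 : dist (g t) (g u) ≤ dist (g t) (f n t) + dist (f n t) (f n u) + dist (f n u) (g u) :=
      dist_triangle4 _ _ _ _
    rw [dist_comm (g t) (f n t)] at h4
    linarith
  have hcont : Continuous fun t : unitInterval => g (t : ℝ) := by
    rw [Metric.continuous_iff]
    intro t ε hε
    obtain ⟨n, hn⟩ := exists_pow_lt_of_lt_one (show 0 < ε / 5 by positivity)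
      (show (1 / 2 : ℝ) < 1 by norm_num)
    have hpos : (0 : ℝ) < (s n).1 := by exact_mod_cast (hgood n).1
    refine ⟨1 / ((s n).1 : ℝ), by positivity, ?_⟩
    intro u hu
    rw [Subtype.dist_eq, Real.dist_eq] at hu
    have hlt : 5 * (1 / 2 : ℝ) ^ n < ε := by linarith
    rcases le_total (t : ℝ) (u : ℝ) with h | h
    · rw [dist_comm]
      refine (hgosc n t u t.2.1 h ?_).trans_lt hlt
      rwa [abs_of_nonneg (sub_nonneg.2 h)] at hu
    · refine (hgosc n u t u.2.1 h ?_).trans_lt hlt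
      rwa [abs_sub_comm, abs_of_nonneg (sub_nonneg.2 h)] at hu
  have hg0 : g 0 = x := by
    refine tendsto_nhds_unique (hg 0) ?_
    have : (fun n => f n 0) = fun _ => x := by
      funext n
      simp only [hf, mul_zero, Nat.floor_zero]
      exact (hgood n).2.1
    rw [this]
    exact tendsto_const_nhds
  have hg1 : g 1 = y := by
    refine tendsto_nhds_unique (hg 1) ?_
    have : (fun n => f n 1) = fun _ => y := by
      funext n
      simp only [hf, mul_one, Nat.floor_natCast]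
      exact (hgood n).2.2.1 _ le_rfl
    rw [this]
    exact tendsto_const_nhds
  refine ⟨⟨⟨fun t : unitInterval => g (t : ℝ), hcont⟩, ?_, ?_⟩, fun t => hgC _⟩
  · show g ((0 : unitInterval) : ℝ) = x
    simpa using hg0
  · show g ((1 : unitInterval) : ℝ) = y
    simpa using hg1

end path

end Pool.Agent.ContB
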