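import Pool.Agent.ContB.Basic

set_option autoImplicit false

open Set Metric Filter Topology

namespace Pool.Agent.ContB

/-- Property (B), weak form: every monotone Hausdorff image of `X` embeds in a Hausdorff space
that is a countable union of arcs. -/
def PropB (X : Type) [MetricSpace X] : Prop :=
  ∀ (Y : Type) [TopologicalSpace Y] [T2Space Y] (f : X → Y),
    Continuous f → Function.Surjective f → (∀ y : Y, IsConnected (f ⁻¹' {y})) →
    ∃ (Z : Type) (_ : TopologicalSpace Z) (_ : T2Space Z),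
      ∃ g : Y → Z, Topology.IsEmbedding g ∧
        ∃ A : ℕ → Set Z, (∀ n : ℕ, Nonempty (↥(A n) ≃ₜ unitInterval)) ∧
          (⋃ n, A n) = Set.univ

section quot

variable {X : Type} [MetricSpace X]

/-- The decomposition of `X` into the members of a disjoint family and singletons. -/
def famSetoid {F : Set (Set X)} (hF : F.PairwiseDisjoint id) : Setoid X where
  r x y := x = y ∨ ∃ M ∈ F, x ∈ M ∧ y ∈ M
  iseqv := by
    refine ⟨fun x => Or.inl rfl, ?_, ?_⟩
    · rintro x y (rfl | ⟨M, hM, h1, h2⟩)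
      · exact Or.inl rfl
      · exact Or.inr ⟨M, hM, h2, h1⟩
    · rintro x y z (rfl | ⟨M, hM, h1, h2⟩) (rfl | ⟨L, hL, h3, h4⟩)
      · exact Or.inl rfl
      · exact Or.inr ⟨L, hL, h3, h4⟩
      · exact Or.inr ⟨M, hM, h1, h2⟩
      · have : M = L := by
          by_contra hne
          exact Set.disjoint_left.1 (hF hM hL hne) h2 h3
        subst this
        exact Or.inr ⟨M, hM, h1, h4⟩

variable [CompactSpace X]

/-- The saturation of a closed set is closed. -/
theorem isClosed_saturation (hA : PropA X) {F : Set (Set X)} (hF : F.PairwiseDisjoint id)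
    (hc : ∀ M ∈ F, IsCompact M ∧ IsConnected M) {H : Set X} (hH : IsClosed H) :
    IsClosed {x | ∃ h ∈ H, h = x ∨ ∃ M ∈ F, h ∈ M ∧ x ∈ M} := by
  rcases H.eq_empty_or_nonempty with rfl | hne
  · simp
  rw [← isOpen_compl_iff, Metric.isOpen_iff]
  intro x hx
  have hxH : x ∉ H := fun h => hx ⟨x, h, Or.inl rfl⟩
  have hδ : 0 < infDist x H := (hH.notMem_iff_infDist_pos hne).1 hxH
  set δ := infDist x H with hδdef
  have hfin : {M ∈ F | (M ∩ H).Nonempty ∧ (M ∩ ball x (δ / 2)).Nonempty}.Finite := by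
    apply hA (δ / 3) (by positivity)
    · exact hF.subset (sep_subset _ _)
    · rintro M ⟨hM, ⟨a, haM, haH⟩, ⟨b, hbM, hbB⟩⟩
      refine ⟨(hc M hM).2, ?_⟩
      have h1 := dist_le_diam haM hbM
      have h2 : δ ≤ dist x a := infDist_le_dist_of_mem haH
      have h3 : dist x a ≤ dist x b + dist b a := dist_triangle _ _ _
      rw [mem_ball, dist_comm] at hbB
      rw [dist_comm b a] at h3
      linarith
  have hTcl : IsClosed (⋃ M ∈ {M ∈ F | (M ∩ H).Nonempty ∧ (M ∩ ball x (δ / 2)).Nonempty}, M) :=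
    hfin.isClosed_biUnion fun M hM => (hc M hM.1).1.isClosed
  have hxT : x ∉ ⋃ M ∈ {M ∈ F | (M ∩ H).Nonempty ∧ (M ∩ ball x (δ / 2)).Nonempty}, M := by
    simp only [mem_iUnion, not_exists]
    rintro M ⟨hM, ⟨a, haM, haH⟩, -⟩ hxM
    exact hx ⟨a, haH, Or.inr ⟨M, hM, haM, hxM⟩⟩
  obtain ⟨ρ, hρ, hρT⟩ := Metric.isOpen_iff.1 hTcl.isOpen_compl x hxT
  refine ⟨min ρ (δ / 2), by positivity, ?_⟩
  rintro y hy ⟨h, hhH, rfl | ⟨M, hM, hhM, hyM⟩⟩
  · rw [mem_ball, lt_min_iff] at hy
    have h2 : δ ≤ dist x h := infDist_le_dist_of_mem hhH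
    rw [dist_comm] at h2
    linarith [hy.2]
  · rw [mem_ball, lt_min_iff] at hy
    apply hρT hy.1
    simp only [mem_iUnion]
    exact ⟨M, ⟨hM, ⟨h, hhM, hhH⟩, ⟨y, hyM, hy.2⟩⟩, hyM⟩

/-- The decomposition space is Hausdorff. -/
theorem t2_quot (hA : PropA X) {F : Set (Set X)} (hF : F.PairwiseDisjoint id)
    (hc : ∀ M ∈ F, IsCompact M ∧ IsConnected M) : T2Space (Quotient (famSetoid hF)) := by
  set f : X → Quotient (famSetoid hF) := Quotient.mk (famSetoid hF) with hf
  have hrel : ∀ x y, f x = f y ↔ (x = y ∨ ∃ M ∈ F, x ∈ M ∧ y ∈ M) := fun x y => Quotient.eq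
  have hsat : ∀ H : Set X, IsClosed H → IsClosed (f ⁻¹' (f '' H)) := by
    intro H hH
    have h1 := isClosed_saturation hA hF hc hH
    convert h1 using 1
    ext x
    constructor
    · rintro ⟨h, hh, e⟩
      exact ⟨h, hh, (hrel h x).1 e⟩
    · rintro ⟨h, hh, e⟩
      exact ⟨h, hh, (hrel h x).2 e⟩
  have hqm : Topology.IsQuotientMap f := isQuotientMap_quotient_mk'
  have hclm : ∀ H : Set X, IsClosed H → IsClosed (f '' H) := fun H hH =>
    hqm.isClosed_preimage.1 (hsat H hH)
  refine ⟨fun y₁ y₂ hne => ?_⟩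
  obtain ⟨x₁, rfl⟩ := Quotient.exists_rep y₁
  obtain ⟨x₂, rfl⟩ := Quotient.exists_rep y₂
  have hc1 : IsClosed (f ⁻¹' {f x₁}) := by
    have := hsat {x₁} isClosed_singleton
    rwa [image_singleton] at this
  have hc2 : IsClosed (f ⁻¹' {f x₂}) := by
    have := hsat {x₂} isClosed_singleton
    rwa [image_singleton] at this
  have hd : Disjoint (f ⁻¹' {f x₁}) (f ⁻¹' {f x₂}) := by
    rw [Set.disjoint_left]
    intro z hz1 hz2
    exact hne (hz1.symm.trans hz2)
  obtain ⟨U₁, U₂, hU₁, hU₂, h1, h2, hU⟩ := normal_separation hc1 hc2 hd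
  refine ⟨(f '' U₁ᶜ)ᶜ, (f '' U₂ᶜ)ᶜ, (hclm _ hU₁.isClosed_compl).isOpen_compl,
    (hclm _ hU₂.isClosed_compl).isOpen_compl, ?_, ?_, ?_⟩
  · rintro ⟨z, hz, e⟩
    exact hz (h1 e)
  · rintro ⟨z, hz, e⟩
    exact hz (h2 e)
  · rw [Set.disjoint_left]
    intro y hy1 hy2
    obtain ⟨x, rfl⟩ := Quotient.exists_rep y
    have hx1 : x ∈ U₁ := by
      by_contra h
      exact hy1 ⟨x, h, rfl⟩
    have hx2 : x ∈ U₂ := by
      by_contra h
      exact hy2 ⟨x, h, rfl⟩
    exact Set.disjoint_left.1 hU hx1 hx2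

/-- The combined use of (B) and the Baire category theorem: for a disjoint family `F` of continua
and a nonempty closed set `K`, there is a saturated open set `U` meeting `K` such that the image
of `U ∩ K` in the decomposition space embeds in the line. -/
theorem exists_arc_chart (hA : PropA X) (hB : PropB X) {F : Set (Set X)}
    (hF : F.PairwiseDisjoint id) (hc : ∀ M ∈ F, IsCompact M ∧ IsConnected M) {K : Set X}
    (hK : IsClosed K) (hKne : K.Nonempty) :
    ∃ U : Set X, IsOpen U ∧ (U ∩ K).Nonempty ∧ (∀ M ∈ F, (M ∩ U).Nonempty → M ⊆ U) ∧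
      ∃ φ : X → ℝ, ContinuousOn φ (U ∩ K) ∧
        ∀ x ∈ U ∩ K, ∀ y ∈ U ∩ K, (φ x = φ y ↔ x = y ∨ ∃ M ∈ F, x ∈ M ∧ y ∈ M) := by
  classical
  have hT2 := t2_quot hA hF hc
  set Y := Quotient (famSetoid hF) with hY
  set f : X → Y := Quotient.mk (famSetoid hF) with hf
  have hrel : ∀ x y, f x = f y ↔ (x = y ∨ ∃ M ∈ F, x ∈ M ∧ y ∈ M) := fun x y => Quotient.eq
  have hfc : Continuous f := continuous_quotient_mk'
  have hfs : Function.Surjective f := Quotient.exists_rep
  obtain ⟨Z, _, _, g, hg, A, hAr, hAu⟩ := hB Y f hfc hfs (by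
    intro y
    obtain ⟨x, rfl⟩ := hfs y
    by_cases h : ∃ M ∈ F, x ∈ M
    · obtain ⟨M, hM, hxM⟩ := h
      have : f ⁻¹' {f x} = M := by
        ext z
        rw [mem_preimage, mem_singleton_iff, hrel]
        constructor
        · rintro (rfl | ⟨L, hL, hzL, hxL⟩)
          · exact hxM
          · have : M = L := by
              by_contra hne
              exact Set.disjoint_left.1 (hF hM hL hne) hxM hxL
            rwa [this]
        · intro hz
          exact Or.inr ⟨M, hM, hz, hxM⟩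
      rw [this]
      exact (hc M hM).2
    · have : f ⁻¹' {f x} = {x} := by
        ext z
        rw [mem_preimage, mem_singleton_iff, hrel, mem_singleton_iff]
        constructor
        · rintro (rfl | ⟨L, hL, hzL, hxL⟩)
          · rfl
          · exact absurd ⟨L, hL, hxL⟩ h
        · intro hz
          exact Or.inl hz
      rw [this]
      exact isConnected_singleton)
  have hAcl : ∀ n, IsClosed (A n) := by
    intro n
    obtain ⟨e⟩ := hAr n
    have : CompactSpace (A n) := e.symm.compactSpace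
    exact (isCompact_iff_compactSpace.2 this).isClosed
  set L : Set Y := f '' K with hL
  have hLc : IsCompact L := hK.isCompact.image hfc
  have : CompactSpace L := isCompact_iff_compactSpace.1 hLc
  have : Nonempty L := (hKne.image f).to_subtype
  obtain ⟨n, hn⟩ := nonempty_interior_of_iUnion_of_closed
    (f := fun n => {l : L | g (l : Y) ∈ A n})
    (fun n => (hAcl n).preimage (hg.continuous.comp continuous_subtype_val))
    (by
      ext l
      simp only [mem_iUnion, mem_ofPred_eq, mem_univ, iff_true]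
      have : g (l : Y) ∈ ⋃ n, A n := by rw [hAu]; trivial
      exact mem_iUnion.1 this)
  obtain ⟨O, hO, hOi⟩ := isOpen_induced_iff.1
    (isOpen_interior (s := {l : L | g (l : Y) ∈ A n}))
  obtain ⟨l, hl⟩ := hn
  obtain ⟨e⟩ := hAr n
  have hUK : ∀ x ∈ f ⁻¹' O ∩ K, g (f x) ∈ A n := by
    rintro x ⟨hxO, hxK⟩
    have : (⟨f x, x, hxK, rfl⟩ : L) ∈ interior {l : L | g (l : Y) ∈ A n} := by
      rw [← hOi]
      exact hxO
    exact (interior_subset (s := {l : L | g (l : Y) ∈ A n}) this : _)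
  refine ⟨f ⁻¹' O, hO.preimage hfc, ?_, ?_, ?_⟩
  · obtain ⟨y, x, hxK, rfl⟩ := l
    refine ⟨x, ?_, hxK⟩
    rw [← hOi] at hl
    exact hl
  · rintro M hM ⟨a, haM, haU⟩ b hbM
    have : f a = f b := (hrel a b).2 (Or.inr ⟨M, hM, haM, hbM⟩)
    rw [mem_preimage, ← this]
    exact haU
  · refine ⟨fun x => if h : g (f x) ∈ A n then ((e ⟨g (f x), h⟩ : unitInterval) : ℝ) else 0,
      ?_, ?_⟩
    · rw [continuousOn_iff_continuous_domRestrict]
      have h1 : (f ⁻¹' O ∩ K).domRestrict (fun x => if h : g (f x) ∈ A n then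
          ((e ⟨g (f x), h⟩ : unitInterval) : ℝ) else 0) =
          fun x : ↥(f ⁻¹' O ∩ K) => ((e ⟨g (f x), hUK x x.2⟩ : unitInterval) : ℝ) := by
        funext x
        simp only [domRestrict_apply]
        rw [dif_pos (hUK x x.2)]
      rw [h1]
      apply continuous_subtype_val.comp
      apply e.continuous.comp
      apply Continuous.subtype_mk
      exact hg.continuous.comp (hfc.comp continuous_subtype_val)
    · intro x hx y hy
      simp only [dif_pos (hUK x hx), dif_pos (hUK y hy)]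
      rw [← hrel]
      constructor
      · intro h
        have h2 := e.injective (Subtype.ext h)
        have h3 : g (f x) = g (f y) := congrArg Subtype.val h2
        exact hg.injective h3
      · intro h
        simp only [h]

end quot

end Pool.Agent.ContB
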