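import Pool.Agent.ContB.Refine

set_option autoImplicit false

open Set Metric Filter Topology

namespace Pool.Agent.ContB

section tree

variable {X : Type} [MetricSpace X]

/-- A choice of refinements for all links and levels. -/
def IsRefFun (S : Set X) (Mf : Set X × Set X → ℕ → Set (Set X))
    (Lf : Set X × Set X → ℕ → Set (Set X × Set X)) : Prop :=
  ∀ (l : Set X × Set X) (n : ℕ), IsLink S l.1 l.2 →
    IsRef S l.1 l.2 (1 / ((n : ℝ) + 1)) (Mf l n) (Lf l n)

/-- The child relation on states (a link together with a level). -/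
def Ch (Lf : Set X × Set X → ℕ → Set (Set X × Set X)) (a b : (Set X × Set X) × ℕ) : Prop :=
  b.1 ∈ Lf a.1 a.2 ∧ b.2 = a.2 + 1

/-- The descendant relation. -/
def Desc (Lf : Set X × Set X → ℕ → Set (Set X × Set X)) (a b : (Set X × Set X) × ℕ) : Prop :=
  Relation.ReflTransGen (Ch Lf) a b

/-- All continua appearing in the refinements below a state. -/
def nod (Mf : Set X × Set X → ℕ → Set (Set X)) (Lf : Set X × Set X → ℕ → Set (Set X × Set X))
    (a : (Set X × Set X) × ℕ) : Set (Set X) :=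
  {m | ∃ b, Desc Lf a b ∧ m ∈ Mf b.1 b.2}

variable {S : Set X} {Mf : Set X × Set X → ℕ → Set (Set X)}
  {Lf : Set X × Set X → ℕ → Set (Set X × Set X)}

theorem Desc.rfl {a : (Set X × Set X) × ℕ} : Desc Lf a a := Relation.ReflTransGen.refl

theorem Desc.trans {a b c : (Set X × Set X) × ℕ} (h : Desc Lf a b) (h' : Desc Lf b c) :
    Desc Lf a c := Relation.ReflTransGen.trans h h'

theorem Desc.of_ch {a b : (Set X × Set X) × ℕ} (h : Ch Lf a b) : Desc Lf a b :=
  Relation.ReflTransGen.single h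

theorem nod_mono {a b : (Set X × Set X) × ℕ} (h : Desc Lf a b) : nod Mf Lf b ⊆ nod Mf Lf a := by
  rintro m ⟨c, hc, hm⟩
  exact ⟨c, h.trans hc, hm⟩

theorem subset_nod {a : (Set X × Set X) × ℕ} : Mf a.1 a.2 ⊆ nod Mf Lf a :=
  fun _ hm => ⟨a, Desc.rfl, hm⟩

theorem desc_level {a b : (Set X × Set X) × ℕ} (h : Desc Lf a b) : a.2 ≤ b.2 := by
  induction h with
  | refl => exact le_rfl
  | tail _ h2 ih => rw [h2.2]; omega

theorem desc_link (h : IsRefFun S Mf Lf) {a b : (Set X × Set X) × ℕ} (ha : IsLink S a.1.1 a.1.2)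
    (hab : Desc Lf a b) : IsLink S b.1.1 b.1.2 := by
  induction hab with
  | refl => exact ha
  | @tail b c _ hbc ih => exact (h b.1 b.2 ih).Llink c.1 hbc.1

theorem desc_sub (h : IsRefFun S Mf Lf) {a b : (Set X × Set X) × ℕ} (ha : IsLink S a.1.1 a.1.2)
    (hab : Desc Lf a b) : b.1.1 ⊆ a.1.1 := by
  induction hab with
  | refl => exact Subset.rfl
  | @tail b c hab hbc ih => exact ((h b.1 b.2 (desc_link h ha hab)).Lsub c.1 hbc.1).trans ih

theorem desc_W (h : IsRefFun S Mf Lf) {a b : (Set X × Set X) × ℕ} (ha : IsLink S a.1.1 a.1.2)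
    (hab : Desc Lf a b) : b.1.2 ⊆ a.1.2 ∪ ⋃₀ (nod Mf Lf a) := by
  induction hab with
  | refl => exact subset_union_left
  | @tail b c hab hbc ih =>
    refine ((h b.1 b.2 (desc_link h ha hab)).LW c.1 hbc.1).trans (union_subset ih ?_)
    exact (sUnion_subset_sUnion (subset_nod.trans (nod_mono hab))).trans subset_union_right

theorem nod_prop (h : IsRefFun S Mf Lf) {a : (Set X × Set X) × ℕ} (ha : IsLink S a.1.1 a.1.2)
    {m : Set X} (hm : m ∈ nod Mf Lf a) : IsCompact m ∧ IsConnected m ∧ m ⊆ a.1.1 := by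
  obtain ⟨b, hab, hm⟩ := hm
  obtain ⟨h1, h2, h3⟩ := (h b.1 b.2 (desc_link h ha hab)).Mprop m hm
  exact ⟨h1, h2, h3.trans (desc_sub h ha hab)⟩

theorem sUnion_nod_subset (h : IsRefFun S Mf Lf) {a : (Set X × Set X) × ℕ}
    (ha : IsLink S a.1.1 a.1.2) : ⋃₀ (nod Mf Lf a) ⊆ a.1.1 :=
  sUnion_subset fun _ hm => (nod_prop h ha hm).2.2

theorem desc_W' (h : IsRefFun S Mf Lf) {a b : (Set X × Set X) × ℕ} (ha : IsLink S a.1.1 a.1.2)
    (hab : Desc Lf a b) : b.1.2 ⊆ a.1.2 ∪ a.1.1 :=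
  (desc_W h ha hab).trans (union_subset_union Subset.rfl (sUnion_nod_subset h ha))

theorem desc_diam (h : IsRefFun S Mf Lf) {a b : (Set X × Set X) × ℕ} (ha : IsLink S a.1.1 a.1.2)
    (hab : Desc Lf a b) (hlt : a.2 < b.2) : Metric.diam b.1.1 ≤ 1 / (b.2 : ℝ) := by
  rcases Relation.ReflTransGen.cases_tail hab with rfl | ⟨c, hac, hcb⟩
  · exact absurd hlt (lt_irrefl _)
  · have := (h c.1 c.2 (desc_link h ha hac)).Ldiam b.1 hcb.1
    rw [hcb.2]
    push_cast
    exact this

theorem desc_two (h : IsRefFun S Mf Lf) {a b : (Set X × Set X) × ℕ} (ha : IsLink S a.1.1 a.1.2)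
    (hab : Desc Lf a b) (hlt : a.2 < b.2) : b.1.2.Nontrivial := by
  rcases Relation.ReflTransGen.cases_tail hab with rfl | ⟨c, hac, hcb⟩
  · exact absurd hlt (lt_irrefl _)
  · exact (h c.1 c.2 (desc_link h ha hac)).Ltwo b.1 hcb.1

/-- Ancestors at prescribed levels. -/
theorem exists_ancestor {a c : (Set X × Set X) × ℕ} (hac : Desc Lf a c) {k : ℕ} (h1 : a.2 ≤ k)
    (h2 : k ≤ c.2) : ∃ b, Desc Lf a b ∧ b.2 = k ∧ Desc Lf b c := by
  induction hac with
  | refl => exact ⟨a, Desc.rfl, le_antisymm h1 h2, Desc.rfl⟩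
  | @tail b c hab hbc ih =>
    by_cases hk : k ≤ b.2
    · obtain ⟨d, g1, g2, g3⟩ := ih hk
      exact ⟨d, g1, g2, g3.trans (Desc.of_ch hbc)⟩
    · refine ⟨c, Relation.ReflTransGen.tail hab hbc, ?_, Desc.rfl⟩
      have := hbc.2
      omega

/-- Descendants at the same level are equal or disjoint. -/
theorem desc_disjoint (h : IsRefFun S Mf Lf) {a : (Set X × Set X) × ℕ}
    (ha : IsLink S a.1.1 a.1.2) :
    ∀ (n : ℕ) (b c : (Set X × Set X) × ℕ), Desc Lf a b → Desc Lf a c → b.2 = a.2 + n →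
      c.2 = a.2 + n → b = c ∨ Disjoint b.1.1 c.1.1 := by
  intro n
  induction n with
  | zero =>
    intro b c hab hac hb hc
    have hbe : a = b := by
      rcases Relation.ReflTransGen.cases_head hab with rfl | ⟨d, had, hdb⟩
      · rfl
      · have := desc_level hdb
        have := had.2
        omega
    have hce : a = c := by
      rcases Relation.ReflTransGen.cases_head hac with rfl | ⟨d, had, hdb⟩
      · rfl
      · have := desc_level hdb
        have := had.2
        omega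
    left
    rw [← hbe, ← hce]
  | succ n ih =>
    intro b c hab hac hb hc
    rcases Relation.ReflTransGen.cases_tail hab with rfl | ⟨b', hab', hbb'⟩
    · omega
    rcases Relation.ReflTransGen.cases_tail hac with rfl | ⟨c', hac', hcc'⟩
    · omega
    have h1 := hbb'.2
    have h2 := hcc'.2
    rcases ih b' c' hab' hac' (by omega) (by omega) with rfl | hd
    · by_cases he : b.1 = c.1
      · left
        exact Prod.ext he (by omega)
      · right
        exact (h b'.1 b'.2 (desc_link h ha hab')).Ldisj b.1 hbb'.1 c.1 hcc'.1 he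
    · right
      exact hd.mono ((h b'.1 b'.2 (desc_link h ha hab')).Lsub b.1 hbb'.1)
        ((h c'.1 c'.2 (desc_link h ha hac')).Lsub c.1 hcc'.1)

/-- Auxiliary one-sided version of `nod_rel`. -/
theorem nod_rel_aux (h : IsRefFun S Mf Lf) {a : (Set X × Set X) × ℕ}
    (ha : IsLink S a.1.1 a.1.2) {b c : (Set X × Set X) × ℕ} (hab : Desc Lf a b)
    (hac : Desc Lf a c) (hle : b.2 ≤ c.2) {m m' : Set X} (hm : m ∈ Mf b.1 b.2)
    (hm' : m' ∈ Mf c.1 c.2) {x x' : X} (hx : x ∈ m) (hx' : x' ∈ m') (hr : CRel S x x') :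
    m = m' := by
  obtain ⟨b', hab', hb', hb'c⟩ := exists_ancestor hac (desc_level hab) hle
  have hlb := desc_link h ha hab
  have hlc := desc_link h ha hac
  have hlb' := desc_link h ha hab'
  have hxb : x ∈ b.1.1 := ((h b.1 b.2 hlb).Mprop m hm).2.2 hx
  have hx'c : x' ∈ c.1.1 := ((h c.1 c.2 hlc).Mprop m' hm').2.2 hx'
  have hx'b : x' ∈ b.1.1 := hlb.sat x hxb hr
  rcases desc_disjoint h ha (b.2 - a.2) b b' hab hab' (by have := desc_level hab; omega)
    (by have := desc_level hab; omega) with rfl | hd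
  · rcases Relation.ReflTransGen.cases_head hb'c with rfl | ⟨e, hbe, hec⟩
    · exact (h b.1 b.2 hlb).Mrel m hm m' hm' x hx x' hx' hr
    · exfalso
      have hle := (h b.1 b.2 hlb).Llink e.1 hbe.1
      have hx'e : x' ∈ e.1.1 := desc_sub h hle hec hx'c
      have hxe : x ∈ e.1.1 := hle.sat x' hx'e hr.symm
      exact Set.disjoint_left.1 ((h b.1 b.2 hlb).LM e.1 hbe.1 m hm) hxe hx
  · exact absurd (desc_sub h hlb' hb'c hx'c) (Set.disjoint_left.1 hd hx'b)

/-- The continua of the construction lie in different components. -/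
theorem nod_rel (h : IsRefFun S Mf Lf) {a : (Set X × Set X) × ℕ}
    (ha : IsLink S a.1.1 a.1.2) {m m' : Set X} (hm : m ∈ nod Mf Lf a) (hm' : m' ∈ nod Mf Lf a)
    {x x' : X} (hx : x ∈ m) (hx' : x' ∈ m') (hr : CRel S x x') : m = m' := by
  obtain ⟨b, hab, hm⟩ := hm
  obtain ⟨c, hac, hm'⟩ := hm'
  rcases le_total b.2 c.2 with hle | hle
  · exact nod_rel_aux h ha hab hac hle hm hm' hx hx' hr
  · exact (nod_rel_aux h ha hac hab hle hm' hm hx' hx hr.symm).symm

theorem nod_pairwiseDisjoint (h : IsRefFun S Mf Lf) {a : (Set X × Set X) × ℕ}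
    (ha : IsLink S a.1.1 a.1.2) : (nod Mf Lf a).PairwiseDisjoint id := by
  intro m hm m' hm' hne
  rw [Function.onFun, Set.disjoint_left]
  intro x hx hx'
  exact hne (nod_rel h ha hm hm' hx hx' (CRel.refl (ha.sub ((nod_prop h ha hm).2.2 hx))))

/-- Every attaching point of a state is an attaching point of a child. -/
theorem exists_child_of_mem (h : IsRefFun S Mf Lf) {a : (Set X × Set X) × ℕ}
    (ha : IsLink S a.1.1 a.1.2) {x : X} (hx : x ∈ a.1.2) : ∃ b, Ch Lf a b ∧ x ∈ b.1.2 := by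
  have hr := h a.1 a.2 ha
  by_contra hcon
  push Not at hcon
  obtain ⟨m, hm⟩ := hr.Mne
  obtain ⟨h1, h2, h3⟩ := hr.Mprop m hm
  have hxD : x ∉ a.1.1 := fun hxD => Set.disjoint_left.1 ha.Wd hx hxD
  rcases hr.R1 {x} (by
    intro m' hm'
    right
    rw [disjoint_singleton_right]
    exact fun hxm => hxD ((hr.Mprop m' hm').2.2 hxm)) (by
    intro l hl
    right
    rw [disjoint_singleton_right]
    exact hcon (l, a.2 + 1) ⟨hl, rfl⟩) with h4 | h4
  · obtain ⟨y, hy⟩ := h2.nonempty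
    have := h4 (Or.inr ⟨m, hm, hy⟩)
    rw [mem_singleton_iff] at this
    exact hxD (h3 (this ▸ hy))
  · rw [disjoint_singleton_right] at h4
    exact h4 (Or.inl hx)

/-- Every continuum of a refinement has a child attached to it. -/
theorem exists_child_of_node (h : IsRefFun S Mf Lf) {a : (Set X × Set X) × ℕ}
    (ha : IsLink S a.1.1 a.1.2) {m : Set X} (hm : m ∈ Mf a.1 a.2) :
    ∃ b, Ch Lf a b ∧ (b.1.2 ∩ m).Nonempty := by
  have hr := h a.1 a.2 ha
  by_contra hcon
  push Not at hcon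
  obtain ⟨h1, h2, h3⟩ := hr.Mprop m hm
  rcases hr.R1 m (by
    intro m' hm'
    by_cases he : m' = m
    · exact Or.inl he.subset
    · right
      rw [Set.disjoint_left]
      intro y hy hy'
      exact he (hr.Mrel m' hm' m hm y hy y hy' (CRel.refl (ha.sub (h3 hy'))))) (by
    intro l hl
    right
    rw [Set.disjoint_iff_inter_eq_empty]
    exact hcon (l, a.2 + 1) ⟨hl, rfl⟩) with h4 | h4
  · obtain ⟨w, hw⟩ := ha.Wne
    exact Set.disjoint_left.1 ha.Wd hw (h3 (h4 (Or.inl hw)))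
  · obtain ⟨y, hy⟩ := h2.nonempty
    exact Set.disjoint_left.1 h4 (Or.inr ⟨m, hm, hy⟩) hy

/-- Descendants keeping an attaching point. -/
theorem exists_desc_of_mem (h : IsRefFun S Mf Lf) {a : (Set X × Set X) × ℕ}
    (ha : IsLink S a.1.1 a.1.2) {x : X} (hx : x ∈ a.1.2) (n : ℕ) :
    ∃ b, Desc Lf a b ∧ x ∈ b.1.2 ∧ b.2 = a.2 + n := by
  induction n with
  | zero => exact ⟨a, Desc.rfl, hx, rfl⟩
  | succ n ih =>
    obtain ⟨b, hab, hxb, hb⟩ := ih
    obtain ⟨c, hbc, hxc⟩ := exists_child_of_mem h (desc_link h ha hab) hxb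
    refine ⟨c, Relation.ReflTransGen.tail hab hbc, hxc, ?_⟩
    rw [hbc.2, hb]
    omega

end tree

end Pool.Agent.ContB
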